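import Pool.Agent.Helper41.LD4.Defs
import Pool.Agent.Helper5.LD.GA
import Pool.Agent.Helper34.LD.WA
import Pool.Agent.Helper67.LD2.Lin
import Pool.Agent.Helper65.LD.Cov
import Pool.Agent.Helper52.LD.GC0

/-!
# Project LD4, block SY0: the system of the Haar functions
-/

set_option autoImplicit false

namespace Pool.Agent.Helper96.LD4

open Set MeasureTheory
open Pool.Agent.Helper41.LD (ind haar)
open Pool.Agent.Helper41.LD2 (EqA)
open Pool.Agent.Helper41.LD4
open Pool.Agent.Helper5.LD (ind_meas haar_meas haar_abs ind_nonneg ind_le_one ii_bdd pieces)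

/-- integral against a function with a small primitive -/
theorem haar_piece (k i : ℕ) {g : ℝ → ℝ} {η : ℝ} (hgm : Measurable g) (hg1 : ∀ x, |g x| ≤ 1)
    (hg : ∀ p q : ℝ, |∫ t in p..q, g t| ≤ η) {p q : ℝ} (hpq : p ≤ q) : |∫ t in p..q, haar k i t * g t| ≤ 4 * η * (q - p + 2) := by
  have hη : 0 ≤ η := (abs_nonneg _).trans (hg 0 0)
  have key : ∀ j : ℕ, |∫ x in p..q, ind (k + 1) j x * g x| ≤ (q - p + 2) * η := by
    intro j
    have h1 := pieces hgm hg1 hη (fun s t _ => hg s t) one_pos (k + 1) j 0 (⌊q - p⌋₊ + 1) p q hpq ⌊p⌋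
      (by
        have := Int.floor_le p
        linarith) (by
      have h2 := Int.lt_floor_add_one p
      have h3 := Nat.lt_floor_add_one (q - p)
      push_cast
      linarith)
    simp only [one_mul, add_zero] at h1
    refine h1.trans (mul_le_mul_of_nonneg_right ?_ hη)
    have h3 := Nat.floor_le (by linarith : 0 ≤ q - p)
    push_cast
    linarith
  have hm : ∀ j : ℕ, Measurable fun x => ind (k + 1) j x * g x := fun j => (ind_meas (k + 1) j).mul hgm
  have hb : ∀ j x, |ind (k + 1) j x * g x| ≤ 1 := fun j x => by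
    rw [abs_mul, abs_of_nonneg (ind_nonneg _ _ _)]
    exact mul_le_one₀ (ind_le_one _ _ _) (abs_nonneg _) (hg1 x)
  have e : ∫ x in p..q, haar k i x * g x =
      (∫ x in p..q, ind (k + 1) (2 * i) x * g x) - ∫ x in p..q, ind (k + 1) (2 * i + 1) x * g x := by
    rw [← intervalIntegral.integral_sub (ii_bdd (hm _) (hb _) p q) (ii_bdd (hm _) (hb _) p q)]
    refine intervalIntegral.integral_congr fun x _ => ?_
    show haar k i x * g x = _
    unfold haar
    ring
  rw [e]
  have h1 := abs_sub (∫ x in p..q, ind (k + 1) (2 * i) x * g x) (∫ x in p..q, ind (k + 1) (2 * i + 1) x * g x)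
  have h2 := key (2 * i)
  have h3 := key (2 * i + 1)
  have h4 : 0 ≤ (q - p + 2) * η := mul_nonneg (by linarith) hη
  linarith

theorem mem_I {K : ℕ} {q : ℕ × ℕ × ℕ × ℕ} (hq : q ∈ sysI 0 K) : q.1 = 0 ∧ q.2.1 = 0 ∧ q.2.2.1 < K ∧ q.2.2.2 < 2 ^ q.2.2.1 := by
  unfold sysI at hq
  rw [if_pos rfl, Finset.mem_filter, Finset.mem_product, Finset.mem_product, Finset.mem_product, Finset.mem_singleton,
    Finset.mem_singleton, Finset.mem_range, Finset.mem_range] at hq
  exact ⟨hq.1.1, hq.1.2.1, hq.1.2.2.1, hq.2⟩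

/-- sums over the index set -/
theorem sum_I (K : ℕ) (F : ℕ × ℕ × ℕ × ℕ → ℝ) :
    ∑ q ∈ sysI 0 K, F q = ∑ k ∈ Finset.range K, ∑ i ∈ Finset.range (2 ^ k), F (0, 0, k, i) := by
  rw [Finset.sum_sigma']
  refine Finset.sum_bij' (fun q _ => ⟨q.2.2.1, q.2.2.2⟩) (fun p _ => (0, 0, p.1, p.2)) ?_ ?_ ?_ ?_ ?_
  · intro q hq
    obtain ⟨h1, h2, h3, h4⟩ := mem_I hq
    simp only [Finset.mem_sigma, Finset.mem_range]
    exact ⟨h3, h4⟩
  · rintro ⟨k, i⟩ hp
    simp only [Finset.mem_sigma, Finset.mem_range] at hp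
    unfold sysI
    rw [if_pos rfl, Finset.mem_filter]
    simp only [Finset.mem_product, Finset.mem_singleton, Finset.mem_range, true_and]
    exact ⟨⟨hp.1, hp.2.trans_le (Nat.pow_le_pow_right (by norm_num) hp.1.le)⟩, hp.2⟩
  · intro q hq
    obtain ⟨h1, h2, h3, h4⟩ := mem_I hq
    obtain ⟨a, b, c, d⟩ := q
    simp only at h1 h2
    subst h1 h2
    rfl
  · rintro ⟨k, i⟩ hp
    rfl
  · intro q hq
    obtain ⟨h1, h2, h3, h4⟩ := mem_I hq
    obtain ⟨a, b, c, d⟩ := q
    simp only at h1 h2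
    subst h1 h2
    rfl

theorem orth_norm {k i k' i' : ℕ} (hi : i < 2 ^ k) (hi' : i' < 2 ^ k') :
    ∫ t in (0 : ℝ)..1, haar k i t * haar k' i' t = if k = k' ∧ i = i' then (1 / 2) ^ k else 0 := by
  rcases lt_trichotomy k k' with h | h | h
  · rw [Pool.Agent.Helper5.LD.int_pair_diff h, if_neg]
    rintro ⟨h1, _⟩
    omega
  · subst h
    rw [Pool.Agent.Helper5.LD.int_pair_same k i i' hi]
    simp only [true_and]
  · have e : ∀ t, haar k i t * haar k' i' t = haar k' i' t * haar k i t := fun t => mul_comm _ _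
    simp only [e]
    rw [Pool.Agent.Helper5.LD.int_pair_diff h, if_neg]
    rintro ⟨h1, _⟩
    omega

theorem haar_Fn {K k : ℕ} (hk : k < K) (i : ℕ) : Fn (2 ^ K) 4 (4 * (1 / 2) ^ k) (haar k i) := by
  refine ⟨haar_meas k i, haar_abs k i, Pool.Agent.Helper5.LD.haar_per k i, fun p q => ?_, fun α Q₀ ε hE hε Q hQ x => ?_,
    fun g η hg hg1 hη p q hpq => ?_, fun s t h => ?_⟩
  · refine (Pool.Agent.Helper34.LD.prim_haar k i p q).trans ?_
    rw [pow_succ]
    have : (0 : ℝ) < (1 / 2) ^ k := by positivity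
    linarith
  · refine (Pool.Agent.Helper67.LD2.sum_haar hE hε k i hQ x).trans ?_
    have : 0 ≤ ε * Q := by positivity
    push_cast
    linarith
  · have := haar_piece k i hg hg1 hη hpq
    push_cast
    exact this
  · push_cast at h
    exact Pool.Agent.Helper65.LD.haar_coarse hk i h

/-- SY0: Haar functions -/
theorem sys_zero {K : ℕ} (hK : 1 ≤ K) : Sys (sysI 0 K) (sysf 0) (sysv 0) (syslev 0 K) K (sysN 0 K) (sysm 0) := by
  have ef : ∀ q : ℕ × ℕ × ℕ × ℕ, sysf 0 q = haar q.2.2.1 q.2.2.2 := fun q => by unfold sysf; rw [if_pos rfl]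
  have ev : ∀ q : ℕ × ℕ × ℕ × ℕ, sysv 0 q = (1 / 2) ^ q.2.2.1 := fun q => by unfold sysv; rw [if_pos rfl]
  have el : ∀ q : ℕ × ℕ × ℕ × ℕ, syslev 0 K q = q.2.2.1 := fun q => by unfold syslev; rw [if_pos rfl]
  have em : sysm 0 = 4 := by unfold sysm; rw [if_pos rfl]
  have eN : sysN 0 K = 2 ^ K := by unfold sysN; rw [if_pos rfl]
  have geo : ∑ k ∈ Finset.range K, (2 : ℝ) ^ k ≤ 2 ^ K := by
    rw [geom_sum_eq (by norm_num)]
    have : (0 : ℝ) < 2 ^ K := by positivity
    norm_num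
  rw [em, eN]
  refine ⟨by norm_num, Nat.one_le_two_pow, by have := Nat.pos_of_ne_zero (pow_ne_zero K (two_ne_zero : (2 : ℕ) ≠ 0)); omega, ?_, ?_, ?_, ?_, ?_, ?_, ?_, ?_, ?_⟩
  · have h := sum_I K (fun _ => (1 : ℝ))
    simp only [Finset.sum_const, nsmul_eq_mul, mul_one, Finset.card_range] at h
    push_cast at h
    have h2 : ((sysI 0 K).card : ℝ) ≤ 4 * 2 ^ K := by
      rw [h]
      have : (0 : ℝ) < 2 ^ K := by positivity
      linarith
    exact_mod_cast h2
  · intro q hq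
    obtain ⟨h1, h2, h3, h4⟩ := mem_I hq
    rw [ef, ev]
    exact haar_Fn h3 _
  · intro q hq
    obtain ⟨h1, h2, h3, h4⟩ := mem_I hq
    rw [ev, one_div, one_div, inv_pow]
    apply inv_anti₀ (by positivity)
    have h5 : (2 : ℝ) ^ q.2.2.1 ≤ 2 ^ K := pow_le_pow_right₀ (by norm_num) h3.le
    have h6 : (0 : ℝ) < 2 ^ K := by positivity
    push_cast
    linarith
  · intro q hq
    rw [ev]
    exact pow_le_one₀ (by norm_num) (by norm_num)
  · rw [sum_I K]
    have h : ∀ k ∈ Finset.range K, ∑ i ∈ Finset.range (2 ^ k), sysv 0 (0, 0, k, i) = 1 := by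
      intro k _
      simp only [ev, Finset.sum_const, Finset.card_range, nsmul_eq_mul]
      push_cast
      rw [← mul_pow]
      norm_num
    rw [Finset.sum_congr rfl h, Finset.sum_const, Finset.card_range, nsmul_eq_mul, mul_one]
    push_cast
    have : (0 : ℝ) ≤ K := Nat.cast_nonneg K
    linarith
  · intro q hq q' hq' hne
    obtain ⟨h1, h2, h3, h4⟩ := mem_I hq
    obtain ⟨h1', h2', h3', h4'⟩ := mem_I hq'
    simp only [ef]
    rw [orth_norm h4 h4', if_neg]
    rintro ⟨h5, h6⟩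
    apply hne
    obtain ⟨a, b, c, d⟩ := q
    obtain ⟨a', b', c', d'⟩ := q'
    simp only at h1 h2 h1' h2' h5 h6
    subst h1 h2 h1' h2' h5 h6
    rfl
  · intro q hq
    obtain ⟨h1, h2, h3, h4⟩ := mem_I hq
    simp only [ef, ev]
    rw [orth_norm h4 h4, if_pos ⟨rfl, rfl⟩]
  · intro q hq
    obtain ⟨h1, h2, h3, h4⟩ := mem_I hq
    rw [el]
    omega
  · intro lv x
    have h1 : ∑ q ∈ sysI 0 K with syslev 0 K q = lv, |sysf 0 q x| =
        ∑ q ∈ sysI 0 K, if q.2.2.1 = lv then |haar q.2.2.1 q.2.2.2 x| else 0 := by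
      rw [Finset.sum_filter]
      refine Finset.sum_congr rfl fun q _ => ?_
      rw [el, ef]
    rw [h1, sum_I K]
    have h2 : ∀ k ∈ Finset.range K, (∑ i ∈ Finset.range (2 ^ k),
        if ((0, 0, k, i) : ℕ × ℕ × ℕ × ℕ).2.2.1 = lv then |haar ((0, 0, k, i) : ℕ × ℕ × ℕ × ℕ).2.2.1 ((0, 0, k, i) : ℕ × ℕ × ℕ × ℕ).2.2.2 x| else 0) =
        if k = lv then ∑ i ∈ Finset.range (2 ^ k), |haar k i x| else 0 := by
      intro k _
      by_cases h : k = lv
      · simp only [h, if_true]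
      · simp only [h, if_false, Finset.sum_const_zero]
    rw [Finset.sum_congr rfl h2]
    have h3 : ∀ k, ∑ i ∈ Finset.range (2 ^ k), |haar k i x| ≤ 1 := by
      intro k
      have h4 := Pool.Agent.Helper52.LD.haar_disj k (fun i => if 0 ≤ haar k i x then 1 else -1)
        (fun i => by split_ifs <;> simp) (2 ^ k) x
      have h5 : ∑ i ∈ Finset.range (2 ^ k), (if 0 ≤ haar k i x then (1 : ℝ) else -1) * haar k i x = ∑ i ∈ Finset.range (2 ^ k), |haar k i x| := by
        refine Finset.sum_congr rfl fun i _ => ?_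
        split_ifs with h
        · rw [one_mul, abs_of_nonneg h]
        · rw [neg_one_mul, abs_of_neg (not_le.1 h)]
      rw [h5] at h4
      exact (le_abs_self _).trans h4
    by_cases h : lv ∈ Finset.range K
    · rw [Finset.sum_ite_eq' (Finset.range K) lv, if_pos h]
      exact h3 lv
    · rw [Finset.sum_ite_eq' (Finset.range K) lv, if_neg h]
      exact zero_le_one

end Pool.Agent.Helper96.LD4
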